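import Pool.Agent.H4.VcB

set_option autoImplicit false

namespace Pool.Agent.Results.MP_f7f1a6_co.No

open MeasureTheory
open scoped ComplexOrder

/-- bounded functions -/
def Bd {G : Type} (f : G → ℂ) : Prop := ∃ C : ℝ, ∀ x, ‖f x‖ ≤ C

/-- translation invariant means: only the values on bounded functions matter -/
def IsMean {G : Type} [AddCommGroup G] (m : (G → ℂ) → ℂ) : Prop :=
  (∀ f g, Bd f → Bd g → m (fun x => f x + g x) = m f + m g) ∧
  (∀ (c : ℂ) f, Bd f → m (fun x => c * f x) = c * m f) ∧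
  (∀ f, Bd f → (∀ x, 0 ≤ f x) → 0 ≤ m f) ∧ m (fun _ => 1) = 1 ∧
  ∀ (h : G) f, Bd f → m (fun x => f (x + h)) = m f

/-- upper Banach density -/
noncomputable def dstar {G : Type} [AddCommGroup G] (A : Set G) : ℝ :=
  sSup {r | ∃ m, IsMean m ∧ r = (m (A.indicator fun _ => 1)).re}

/-- the Borel sets of the dual group, with the topology of pointwise convergence -/
noncomputable def dualBorel (G : Type) [AddCommGroup G] : MeasurableSpace (AddChar G Circle) :=
  @borel _ (TopologicalSpace.induced (fun χ => (χ : G → Circle)) Pi.topologicalSpace)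

theorem result : ∃ (G : Type) (_ : AddCommGroup G) (S : Set G),
    (∀ A : Set G, 0 < dstar A → ∀ g : G, ∃ a ∈ A, ∃ a' ∈ A, ∃ s ∈ S, g = a - a' + s) ∧
    ∃ σ : @Measure (AddChar G Circle) (dualBorel G), IsFiniteMeasure σ ∧
      (∀ s ∈ S, ∫ χ, ((χ s : Circle) : ℂ) ∂σ = 0) ∧ 0 < σ {1} := by
  refine ⟨H4.VcB.Gs, inferInstance, {s | H4.VcB.psi s = -1 / 2}, fun A c g => ?_, ?_⟩
  · by_cases n : {r | ∃ m, IsMean m ∧ r = (m (A.indicator fun _ => 1)).re}.Nonempty
    · obtain ⟨_, ⟨m, x, rfl⟩, y⟩ := exists_lt_of_lt_csSup n c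
      exact H4.VcB.expand x A y g
    · rw [dstar, Set.not_nonempty_iff_eq_empty.1 n, Real.sSup_empty] at c
      exact absurd c (lt_irrefl _)
  · exact H4.VcB.meas

end Pool.Agent.Results.MP_f7f1a6_co.No
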